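import Mathlib

namespace Pool.Agent.Results.MP_039f5e_co.BalancedSets

open Finset

/-- The vertex `a` of the cube as a point of `ℝ^n`. -/
noncomputable def pt {n : ℕ} (a : Fin n → Bool) : Fin n → ℝ := fun i => if a i = true then 1 else 0

/-- `diam(A) ≤ r` for the Hamming distance. -/
def DiamLe {n : ℕ} (A : Finset (Fin n → Bool)) (r : ℕ) : Prop :=
  ∀ a ∈ A, ∀ b ∈ A, hammingDist a b ≤ r

/-- The centre `c = (1/2, …, 1/2)`. -/
noncomputable def centre (n : ℕ) : Fin n → ℝ := fun _ => 1 / 2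

/-- `im(f_n)`: the union of `conv(σ)` over the nonempty vertex sets `σ` of diameter at most `r`. -/
def im (n r : ℕ) : Set (Fin n → ℝ) :=
  {x | ∃ σ : Finset (Fin n → Bool), σ.Nonempty ∧ DiamLe σ r ∧
    x ∈ convexHull ℝ (pt '' (σ : Set (Fin n → Bool)))}

/-- `B` is balanced: nonempty with unweighted average `c`. -/
def Balanced {n : ℕ} (B : Finset (Fin n → Bool)) : Prop :=
  B.Nonempty ∧ (1 / (B.card : ℝ)) • ∑ b ∈ B, pt b = centre n

/-- The statement of Q1 for one pair `(n, r)`. -/
def Q1At (n r : ℕ) : Prop :=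
  centre n ∈ im n r → ∃ B : Finset (Fin n → Bool), Balanced B ∧ DiamLe B r

/-- A Hadamard matrix of order `N` exists. -/
def HadamardOrder (N : ℕ) : Prop :=
  ∃ H : Matrix (Fin N) (Fin N) ℤ, (∀ i j, H i j = 1 ∨ H i j = -1) ∧
    H * H.transpose = (N : ℤ) • (1 : Matrix (Fin N) (Fin N) ℤ)

/-! ### The equality argument -/

lemma pt_injective {n : ℕ} : Function.Injective (pt (n := n)) := by
  intro a b h
  funext i
  have := congrFun h i
  simp only [pt] at this
  cases ha : a i <;> cases hb : b i <;> simp_all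

/-- Sign vector with an extra coordinate `1`. -/
noncomputable def sg {n : ℕ} (a : Fin n → Bool) (j : Option (Fin n)) : ℝ :=
  match j with
  | none => 1
  | some i => 2 * pt a i - 1

lemma G_eq {n : ℕ} (a b : Fin n → Bool) :
    ∑ j, sg a j * sg b j = (n : ℝ) + 1 - 2 * (hammingDist a b : ℝ) := by
  rw [Fintype.sum_option]
  have h : ∀ i : Fin n, sg a (some i) * sg b (some i)
      = 1 - 2 * (if a i ≠ b i then (1:ℝ) else 0) := by
    intro i
    simp only [sg, pt]
    cases ha : a i <;> cases hb : b i <;> norm_num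
  simp only [h]
  rw [Finset.sum_sub_distrib, ← Finset.mul_sum, Finset.sum_boole]
  simp only [sg, hammingDist, Finset.sum_const, Finset.card_univ, Fintype.card_fin, nsmul_eq_mul]
  ring

lemma idA {α J : Type*} [Fintype J] (σ : Finset α) (w : α → ℝ) (u : α → J → ℝ) :
    ∑ a ∈ σ, ∑ b ∈ σ, w a * w b * (∑ j, u a j * u b j) = ∑ j, (∑ a ∈ σ, w a * u a j) ^ 2 := by
  simp only [pow_two, Finset.sum_mul_sum]
  rw [Finset.sum_comm]
  rw [Finset.sum_comm (s := univ)]
  refine Finset.sum_congr rfl fun a _ => ?_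
  rw [Finset.sum_comm]
  refine Finset.sum_congr rfl fun b _ => ?_
  rw [Finset.mul_sum]
  refine Finset.sum_congr rfl fun j _ => ?_
  ring

lemma idB {α J : Type*} [Fintype J] (σ : Finset α) (w : α → ℝ) (u : α → J → ℝ) :
    ∑ a ∈ σ, ∑ b ∈ σ, w a * w b * (∑ j, u a j * u b j) ^ 2
      = ∑ p : J × J, (∑ a ∈ σ, w a * (u a p.1 * u a p.2)) ^ 2 := by
  rw [← idA]
  refine Finset.sum_congr rfl fun a _ => Finset.sum_congr rfl fun b _ => ?_
  congr 1
  rw [pow_two, Finset.sum_mul_sum, ← Finset.univ_product_univ, Finset.sum_product]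
  refine Finset.sum_congr rfl fun i _ => Finset.sum_congr rfl fun j _ => ?_
  ring

lemma sg_sq {n : ℕ} (a : Fin n → Bool) (j : Option (Fin n)) : sg a j * sg a j = 1 := by
  cases j with
  | none => simp [sg]
  | some i =>
    simp only [sg, pt]
    cases ha : a i <;> norm_num

theorem support_balanced {n : ℕ} (σ : Finset (Fin n → Bool)) (w : (Fin n → Bool) → ℝ)
    (hw0 : ∀ a ∈ σ, 0 ≤ w a) (hw1 : ∑ a ∈ σ, w a = 1)
    (hc : ∀ i, ∑ a ∈ σ, w a * pt a i = 1 / 2)
    (hd : ∀ a ∈ σ, ∀ b ∈ σ, 2 * hammingDist a b ≤ n + 1) :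
    ∃ τ ⊆ σ, τ.card = n + 1 ∧ (∀ i, ∑ a ∈ τ, pt a i = ((n : ℝ) + 1) / 2) ∧
      ∀ a ∈ τ, ∀ b ∈ τ, a ≠ b → ∑ j, sg a j * sg b j = 0 := by
  classical
  -- mean of the extended sign vectors
  have hmean : ∀ j : Option (Fin n), ∑ a ∈ σ, w a * sg a j = if j = none then 1 else 0 := by
    intro j
    cases j with
    | none => simpa [sg] using hw1
    | some i =>
      simp only [sg]
      have : ∀ a ∈ σ, w a * (2 * pt a i - 1) = 2 * (w a * pt a i) - w a := by
        intro a _; ring
      rw [Finset.sum_congr rfl this, Finset.sum_sub_distrib, ← Finset.mul_sum, hc, hw1]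
      simp
  have hA : ∑ a ∈ σ, ∑ b ∈ σ, w a * w b * (∑ j, sg a j * sg b j) = 1 := by
    rw [idA]
    simp only [hmean]
    rw [Fintype.sum_option]
    simp
  have hB : (n : ℝ) + 1 ≤ ∑ a ∈ σ, ∑ b ∈ σ, w a * w b * (∑ j, sg a j * sg b j) ^ 2 := by
    rw [idB, ← Finset.univ_product_univ, Finset.sum_product]
    have h1 : ∀ i : Option (Fin n), (1 : ℝ) ≤ ∑ j, (∑ a ∈ σ, w a * (sg a i * sg a j)) ^ 2 := by
      intro i
      have h2 : (∑ a ∈ σ, w a * (sg a i * sg a i)) ^ 2 = 1 := by
        simp only [sg_sq, mul_one, hw1, one_pow]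
      calc (1 : ℝ) = (∑ a ∈ σ, w a * (sg a i * sg a i)) ^ 2 := h2.symm
        _ ≤ _ := Finset.single_le_sum (f := fun j => (∑ a ∈ σ, w a * (sg a i * sg a j)) ^ 2)
            (fun j _ => sq_nonneg _) (Finset.mem_univ i)
    calc (n : ℝ) + 1 = ∑ _i : Option (Fin n), (1 : ℝ) := by simp
      _ ≤ _ := Finset.sum_le_sum fun i _ => h1 i
  have hG0 : ∀ a ∈ σ, ∀ b ∈ σ, 0 ≤ ∑ j, sg a j * sg b j := by
    intro a ha b hb
    rw [G_eq]
    have := hd a ha b hb
    have h' : (2 : ℝ) * (hammingDist a b : ℝ) ≤ n + 1 := by exact_mod_cast this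
    linarith
  have hG1 : ∀ a b : Fin n → Bool, ∑ j, sg a j * sg b j ≤ (n : ℝ) + 1 := by
    intro a b
    rw [G_eq]
    have : (0 : ℝ) ≤ (hammingDist a b : ℝ) := Nat.cast_nonneg _
    linarith
  have hnn : ∀ a ∈ σ, ∀ b ∈ σ, 0 ≤ w a * w b *
      ((∑ j, sg a j * sg b j) * ((n : ℝ) + 1 - ∑ j, sg a j * sg b j)) := by
    intro a ha b hb
    exact mul_nonneg (mul_nonneg (hw0 a ha) (hw0 b hb))
      (mul_nonneg (hG0 a ha b hb) (by linarith [hG1 a b]))
  have hsum : ∑ a ∈ σ, ∑ b ∈ σ, w a * w b *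
      ((∑ j, sg a j * sg b j) * ((n : ℝ) + 1 - ∑ j, sg a j * sg b j)) ≤ 0 := by
    have e : ∑ a ∈ σ, ∑ b ∈ σ, w a * w b *
      ((∑ j, sg a j * sg b j) * ((n : ℝ) + 1 - ∑ j, sg a j * sg b j))
      = ((n : ℝ) + 1) * (∑ a ∈ σ, ∑ b ∈ σ, w a * w b * (∑ j, sg a j * sg b j))
        - ∑ a ∈ σ, ∑ b ∈ σ, w a * w b * (∑ j, sg a j * sg b j) ^ 2 := by
      rw [Finset.mul_sum, ← Finset.sum_sub_distrib]
      refine Finset.sum_congr rfl fun a _ => ?_
      rw [Finset.mul_sum, ← Finset.sum_sub_distrib]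
      refine Finset.sum_congr rfl fun b _ => ?_
      ring
    rw [e, hA]
    linarith
  have hzero : ∀ a ∈ σ, ∀ b ∈ σ, w a * w b *
      ((∑ j, sg a j * sg b j) * ((n : ℝ) + 1 - ∑ j, sg a j * sg b j)) = 0 := by
    have h1 : ∑ a ∈ σ, ∑ b ∈ σ, w a * w b *
      ((∑ j, sg a j * sg b j) * ((n : ℝ) + 1 - ∑ j, sg a j * sg b j)) = 0 :=
      le_antisymm hsum (Finset.sum_nonneg fun a ha => Finset.sum_nonneg fun b hb => hnn a ha b hb)
    intro a ha b hb
    have h2 := (Finset.sum_eq_zero_iff_of_nonneg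
      (fun a ha => Finset.sum_nonneg fun b hb => hnn a ha b hb)).1 h1 a ha
    exact (Finset.sum_eq_zero_iff_of_nonneg (fun b hb => hnn a ha b hb)).1 h2 b hb
  -- orthogonality on the support
  have horth : ∀ a ∈ σ, ∀ b ∈ σ, 0 < w a → 0 < w b → a ≠ b → ∑ j, sg a j * sg b j = 0 := by
    intro a ha b hb hwa hwb hab
    have h := hzero a ha b hb
    have h1 : (∑ j, sg a j * sg b j) * ((n : ℝ) + 1 - ∑ j, sg a j * sg b j) = 0 := by
      rcases mul_eq_zero.1 h with h | h
      · exfalso
        have : 0 < w a * w b := mul_pos hwa hwb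
        linarith
      · exact h
    rcases mul_eq_zero.1 h1 with h2 | h2
    · exact h2
    · exfalso
      rw [G_eq] at h2
      have h3 : 0 < hammingDist a b := hammingDist_pos.2 hab
      have h4 : (0 : ℝ) < (hammingDist a b : ℝ) := by exact_mod_cast h3
      linarith
  have hwval : ∀ a ∈ σ, 0 < w a → w a * ((n : ℝ) + 1) = 1 := by
    intro a ha hwa
    have h1 : ∑ b ∈ σ, w b * (∑ j, sg a j * sg b j) = 1 := by
      have : ∑ b ∈ σ, w b * (∑ j, sg a j * sg b j) = ∑ j, sg a j * ∑ b ∈ σ, w b * sg b j := by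
        simp only [Finset.mul_sum]
        rw [Finset.sum_comm]
        refine Finset.sum_congr rfl fun j _ => Finset.sum_congr rfl fun b _ => ?_
        ring
      rw [this]
      simp only [hmean]
      rw [Fintype.sum_option]
      simp [sg]
    have h2 : ∑ b ∈ σ, w b * (∑ j, sg a j * sg b j) = w a * (∑ j, sg a j * sg a j) := by
      refine Finset.sum_eq_single_of_mem a ha ?_
      intro b hb hba
      rcases (hw0 b hb).lt_or_eq with h | h
      · rw [horth a ha b hb hwa h (Ne.symm hba), mul_zero]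
      · rw [← h, zero_mul]
    have h3 : ∑ j, sg a j * sg a j = (n : ℝ) + 1 := by
      simp only [sg_sq]
      simp
    rw [h2, h3] at h1
    exact h1
  set τ := σ.filter (fun a => 0 < w a) with hτ
  have hτσ : τ ⊆ σ := Finset.filter_subset _ _
  have hmem : ∀ a ∈ τ, a ∈ σ ∧ 0 < w a := fun a ha => Finset.mem_filter.1 ha
  have hsupp : ∀ f : (Fin n → Bool) → ℝ, ∑ a ∈ τ, w a * f a = ∑ a ∈ σ, w a * f a := by
    intro f
    refine Finset.sum_subset hτσ ?_
    intro a ha hna
    have : ¬ 0 < w a := fun h => hna (Finset.mem_filter.2 ⟨ha, h⟩)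
    have h0 : w a = 0 := le_antisymm (not_lt.1 this) (hw0 a ha)
    rw [h0, zero_mul]
  have hn1 : (n : ℝ) + 1 ≠ 0 := by positivity
  have hwv : ∀ a ∈ τ, w a = 1 / ((n : ℝ) + 1) := by
    intro a ha
    have := hwval a (hmem a ha).1 (hmem a ha).2
    field_simp
    linarith
  refine ⟨τ, hτσ, ?_, ?_, ?_⟩
  · have h1 : ∑ a ∈ τ, w a * 1 = 1 := by
      rw [hsupp (fun _ => 1)]
      simpa using hw1
    have h2 : ∑ a ∈ τ, w a * 1 = (τ.card : ℝ) * (1 / ((n : ℝ) + 1)) := by
      rw [Finset.sum_congr rfl (fun a ha => by rw [hwv a ha, mul_one])]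
      rw [Finset.sum_const, nsmul_eq_mul]
    rw [h1] at h2
    have h3 : (τ.card : ℝ) = (n : ℝ) + 1 := by
      field_simp at h2
      linarith
    exact_mod_cast h3
  · intro i
    have h1 := hsupp (fun a => pt a i)
    rw [hc i] at h1
    have h2 : ∑ a ∈ τ, w a * pt a i = (1 / ((n : ℝ) + 1)) * ∑ a ∈ τ, pt a i := by
      rw [Finset.mul_sum]
      exact Finset.sum_congr rfl (fun a ha => by rw [hwv a ha])
    rw [h1] at h2
    field_simp at h2
    field_simp
    linarith
  · intro a ha b hb hab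
    exact horth a (hmem a ha).1 b (hmem b hb).1 (hmem a ha).2 (hmem b hb).2 hab


lemma weights {n : ℕ} (σ : Finset (Fin n → Bool))
    (h : centre n ∈ convexHull ℝ (pt '' (σ : Set (Fin n → Bool)))) :
    ∃ w : (Fin n → Bool) → ℝ, (∀ a ∈ σ, 0 ≤ w a) ∧ ∑ a ∈ σ, w a = 1 ∧
      ∀ i, ∑ a ∈ σ, w a * pt a i = 1 / 2 := by
  classical
  rw [← Finset.coe_image, Finset.mem_convexHull'] at h
  obtain ⟨w, h0, h1, h2⟩ := h
  rw [Finset.sum_image (fun a _ b _ h => pt_injective h)] at h1 h2
  refine ⟨fun a => w (pt a), fun a ha => h0 _ (Finset.mem_image_of_mem _ ha), h1, fun i => ?_⟩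
  have := congrFun h2 i
  simpa [Finset.sum_apply, centre] using this

/-- Integer version of `sg`. -/
def sgZ {n : ℕ} (a : Fin n → Bool) (j : Option (Fin n)) : ℤ :=
  match j with
  | none => 1
  | some i => if a i = true then 1 else -1

lemma sgZ_cast {n : ℕ} (a : Fin n → Bool) (j : Option (Fin n)) : ((sgZ a j : ℤ) : ℝ) = sg a j := by
  cases j with
  | none => simp [sgZ, sg]
  | some i =>
    simp only [sgZ, sg, pt]
    cases ha : a i <;> norm_num

lemma sgZ_unit {n : ℕ} (a : Fin n → Bool) (j : Option (Fin n)) : sgZ a j = 1 ∨ sgZ a j = -1 := by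
  cases j with
  | none => simp [sgZ]
  | some i =>
    simp only [sgZ]
    cases ha : a i <;> simp

theorem small_r {n r : ℕ} (hr : 2 * r ≤ n + 1) (h : centre n ∈ im n r) :
    (∃ B : Finset (Fin n → Bool), Balanced B ∧ DiamLe B r) ∧ HadamardOrder (n + 1) := by
  classical
  obtain ⟨σ, -, hd, hm⟩ := h
  obtain ⟨w, h0, h1, h2⟩ := weights σ hm
  obtain ⟨τ, hτσ, hcard, hbal, horth⟩ := support_balanced σ w h0 h1 h2
    (fun a ha b hb => le_trans (Nat.mul_le_mul_left 2 (hd a ha b hb)) hr)
  have hn1 : (n : ℝ) + 1 ≠ 0 := by positivity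
  refine ⟨⟨τ, ⟨?_, ?_⟩, fun a ha b hb => hd a (hτσ ha) b (hτσ hb)⟩, ?_⟩
  · rw [← Finset.card_pos, hcard]; omega
  · funext i
    rw [hcard]
    simp only [Pi.smul_apply, Finset.sum_apply, smul_eq_mul, centre]
    rw [hbal i]
    push_cast
    field_simp
  · let e : Fin (n + 1) ≃ τ := (Finset.equivFinOfCardEq hcard).symm
    refine ⟨Matrix.of fun i j => sgZ (e i : Fin n → Bool) (finSuccEquiv n j),
      fun i j => sgZ_unit _ _, ?_⟩
    ext i k
    rw [Matrix.mul_apply]
    simp only [Matrix.transpose_apply, Matrix.smul_apply, Matrix.one_apply, smul_eq_mul,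
      Matrix.of_apply]
    have h3 : ∑ j, sgZ (e i : Fin n → Bool) (finSuccEquiv n j) *
        sgZ (e k : Fin n → Bool) (finSuccEquiv n j)
        = ∑ j, sgZ (e i : Fin n → Bool) j * sgZ (e k : Fin n → Bool) j :=
      Equiv.sum_comp (finSuccEquiv n) (fun j => sgZ (e i : Fin n → Bool) j *
        sgZ (e k : Fin n → Bool) j)
    have h4 : ((∑ j, sgZ (e i : Fin n → Bool) j * sgZ (e k : Fin n → Bool) j : ℤ) : ℝ)
        = ∑ j, sg (e i : Fin n → Bool) j * sg (e k : Fin n → Bool) j := by
      push_cast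
      simp only [sgZ_cast]
    rw [h3]
    have h5 : ((∑ j, sgZ (e i : Fin n → Bool) j * sgZ (e k : Fin n → Bool) j : ℤ) : ℝ)
        = (((n + 1 : ℕ) : ℤ) * (if i = k then 1 else 0) : ℤ) := by
      rw [h4]
      by_cases hik : i = k
      · subst hik
        simp only [sg_sq]
        simp
      · have hne : (e i : Fin n → Bool) ≠ (e k : Fin n → Bool) := by
          intro h
          exact hik (e.injective (Subtype.ext h))
        rw [horth _ (e i).2 _ (e k).2 hne]
        simp [hik]
    exact_mod_cast h5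

/-! ### Families of sign vectors -/

/-- A nonempty injective family of sign vectors indexed by `ι` with all column sums zero and all
inner products at least `|ι| - 2 r`. -/
def Fam (ι : Type) [Fintype ι] (r : ℕ) : Prop :=
  ∃ (κ : Type) (_ : Fintype κ) (_ : Nonempty κ) (v : κ → ι → ℤˣ), Function.Injective v ∧
    (∀ i, ∑ k, (v k i : ℤ) = 0) ∧
    ∀ k l, (Fintype.card ι : ℤ) - 2 * r ≤ ∑ i, (v k i : ℤ) * (v l i : ℤ)

lemma Fam.balanced {n r : ℕ} (h : Fam (Fin n) r) :
    ∃ B : Finset (Fin n → Bool), Balanced B ∧ DiamLe B r := by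
  classical
  obtain ⟨κ, _, _, v, hinj, hbal, hin⟩ := h
  let g : κ → Fin n → Bool := fun k i => decide (v k i = 1)
  have hgv : ∀ k i, (sg (g k) (some i) : ℝ) = ((v k i : ℤ) : ℝ) := by
    intro k i
    rcases Int.units_eq_one_or (v k i) with h | h
    · simp only [sg, pt, g, h]; norm_num
    · simp only [sg, pt, g, h]
      have : ¬ ((-1 : ℤˣ) = 1) := by decide
      simp [this]
  have hg : Function.Injective g := by
    intro k l hkl
    apply hinj
    funext i
    have h1 := hgv k i
    have h2 := hgv l i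
    rw [hkl, h2] at h1
    have h3 : (v l i : ℤ) = (v k i : ℤ) := by exact_mod_cast h1
    exact (Units.ext h3).symm
  have hcard : (univ.image g).card = Fintype.card κ := by
    rw [Finset.card_image_of_injective _ hg, Finset.card_univ]
  have hk0 : (Fintype.card κ : ℝ) ≠ 0 := by
    have := Fintype.card_pos (α := κ)
    positivity
  refine ⟨univ.image g, ⟨?_, ?_⟩, ?_⟩
  · exact Finset.image_nonempty.2 Finset.univ_nonempty
  · funext i
    rw [hcard]
    simp only [Pi.smul_apply, Finset.sum_apply, smul_eq_mul, centre]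
    rw [Finset.sum_image (fun a _ b _ h => hg h)]
    have h1 : ∀ k, pt (g k) i = (1 + ((v k i : ℤ) : ℝ)) / 2 := by
      intro k
      rw [← hgv k i]
      simp only [sg]
      ring
    simp only [h1]
    rw [← Finset.sum_div, Finset.sum_add_distrib]
    have h2 : ∑ k, ((v k i : ℤ) : ℝ) = 0 := by
      have := hbal i
      exact_mod_cast this
    rw [h2]
    simp
    field_simp
  · intro a ha b hb
    obtain ⟨k, -, rfl⟩ := Finset.mem_image.1 ha
    obtain ⟨l, -, rfl⟩ := Finset.mem_image.1 hb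
    have h1 := G_eq (g k) (g l)
    rw [Fintype.sum_option] at h1
    simp only [hgv] at h1
    have h2 : ((∑ i, (v k i : ℤ) * (v l i : ℤ) : ℤ) : ℝ)
      = ∑ i, ((v k i : ℤ) : ℝ) * ((v l i : ℤ) : ℝ) := by push_cast; rfl
    have h3 : (((Fintype.card (Fin n) : ℤ) - 2 * r : ℤ) : ℝ)
      ≤ ((∑ i, (v k i : ℤ) * (v l i : ℤ) : ℤ) : ℝ) := by exact_mod_cast hin k l
    rw [h2] at h3
    push_cast at h3
    rw [Fintype.card_fin] at h3
    simp only [sg] at h1
    have h4 : (hammingDist (g k) (g l) : ℝ) ≤ r := by linarith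
    exact_mod_cast h4

lemma Fam.equiv {ι ι' : Type} [Fintype ι] [Fintype ι'] {r : ℕ} (e : ι ≃ ι') (h : Fam ι r) :
    Fam ι' r := by
  obtain ⟨κ, _, _, v, hinj, hbal, hin⟩ := h
  refine ⟨κ, inferInstance, inferInstance, fun k i => v k (e.symm i), ?_, ?_, ?_⟩
  · intro k l hkl
    apply hinj
    funext i
    have := congrFun hkl (e i)
    simpa using this
  · intro i
    exact hbal _
  · intro k l
    rw [← Fintype.card_congr e]
    refine (hin k l).trans (le_of_eq ?_)
    exact (Equiv.sum_comp e.symm (fun i => (v k i : ℤ) * (v l i : ℤ))).symm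

lemma Fam.mono {ι : Type} [Fintype ι] {r r' : ℕ} (hr : r ≤ r') (h : Fam ι r) : Fam ι r' := by
  obtain ⟨κ, _, _, v, hinj, hbal, hin⟩ := h
  refine ⟨κ, inferInstance, inferInstance, v, hinj, hbal, fun k l => le_trans ?_ (hin k l)⟩
  have : (r : ℤ) ≤ r' := by exact_mod_cast hr
  linarith

lemma Fam.prod {ι ι' : Type} [Fintype ι] [Fintype ι'] {r r' : ℕ} (h : Fam ι r) (h' : Fam ι' r') :
    Fam (ι ⊕ ι') (r + r') := by
  obtain ⟨κ, _, _, v, hinj, hbal, hin⟩ := h
  obtain ⟨κ', _, _, v', hinj', hbal', hin'⟩ := h'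
  refine ⟨κ × κ', inferInstance, inferInstance, fun p => Sum.elim (v p.1) (v' p.2), ?_, ?_, ?_⟩
  · rintro ⟨k, k'⟩ ⟨l, l'⟩ hkl
    have h1 : v k = v l := by
      funext i
      exact congrFun hkl (Sum.inl i)
    have h2 : v' k' = v' l' := by
      funext i
      exact congrFun hkl (Sum.inr i)
    rw [hinj h1, hinj' h2]
  · rintro (i | i)
    · rw [Fintype.sum_prod_type]
      simp only [Sum.elim_inl, Finset.sum_const]
      rw [← Finset.smul_sum, hbal i, smul_zero]
    · rw [Fintype.sum_prod_type]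
      simp only [Sum.elim_inr, hbal' i, Finset.sum_const_zero]
  · intro p q
    rw [Fintype.sum_sum_type, Fintype.card_sum]
    simp only [Sum.elim_inl, Sum.elim_inr]
    have h1 := hin p.1 q.1
    have h2 := hin' p.2 q.2
    push_cast
    linarith

lemma Fam.add {m n r s : ℕ} (h : Fam (Fin m) r) (h' : Fam (Fin n) s) : Fam (Fin (m + n)) (r + s) :=
  (h.prod h').equiv finSumFinEquiv

lemma fam_one : Fam (Fin 1) 1 := by
  refine ⟨ℤˣ, inferInstance, inferInstance, fun u _ => u, ?_, ?_, ?_⟩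
  · intro u v h
    exact congrFun h 0
  · intro i
    change ∑ k : ℤˣ, (k : ℤ) = 0
    decide
  · intro k l
    simp only [Fintype.card_fin, Finset.univ_unique, Finset.sum_singleton]
    rcases Int.units_eq_one_or k with h | h <;> rcases Int.units_eq_one_or l with h' | h' <;>
      subst h h' <;> norm_num

lemma fam_zero : Fam (Fin 0) 0 := by
  refine ⟨Unit, inferInstance, inferInstance, fun _ _ => 1, ?_, ?_, ?_⟩
  · intro u v _
    rfl
  · intro i
    exact i.elim0
  · intro k l
    simp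

/-! ### Hadamard matrices -/

lemma hadamard_rows {N : ℕ} {H : Matrix (Fin N) (Fin N) ℤ}
    (hH : H * H.transpose = (N : ℤ) • (1 : Matrix (Fin N) (Fin N) ℤ)) (i k : Fin N) :
    ∑ j, H i j * H k j = if i = k then (N : ℤ) else 0 := by
  have h := congrFun (congrFun hH i) k
  rw [Matrix.mul_apply] at h
  simp only [Matrix.transpose_apply, Matrix.smul_apply, Matrix.one_apply, smul_eq_mul] at h
  rw [h]
  split_ifs <;> simp

lemma hadamard_of_rows {N : ℕ} {H : Matrix (Fin N) (Fin N) ℤ}
    (h : ∀ i k, ∑ j, H i j * H k j = if i = k then (N : ℤ) else 0) :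
    H * H.transpose = (N : ℤ) • (1 : Matrix (Fin N) (Fin N) ℤ) := by
  ext i k
  rw [Matrix.mul_apply]
  simp only [Matrix.transpose_apply, Matrix.smul_apply, Matrix.one_apply, smul_eq_mul]
  rw [h]
  split_ifs <;> simp

lemma hadamard_cols {N : ℕ} (hN : 0 < N) {H : Matrix (Fin N) (Fin N) ℤ}
    (hH : H * H.transpose = (N : ℤ) • (1 : Matrix (Fin N) (Fin N) ℤ)) (j k : Fin N) :
    ∑ i, H i j * H i k = if j = k then (N : ℤ) else 0 := by
  have hNQ : (N : ℚ) ≠ 0 := by positivity
  let A : Matrix (Fin N) (Fin N) ℚ := Matrix.of fun i j => (H i j : ℚ)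
  have h1 : A * ((N : ℚ)⁻¹ • A.transpose) = 1 := by
    ext a b
    rw [Matrix.mul_apply]
    simp only [A, Matrix.smul_apply, Matrix.transpose_apply, Matrix.of_apply, smul_eq_mul,
      Matrix.one_apply]
    have h := hadamard_rows hH a b
    have h' : (((∑ j, H a j * H b j : ℤ)) : ℚ) = ((if a = b then (N : ℤ) else 0 : ℤ) : ℚ) := by
      rw [h]
    push_cast at h'
    calc ∑ x, (H a x : ℚ) * ((N : ℚ)⁻¹ * (H b x : ℚ))
        = (N : ℚ)⁻¹ * ∑ x, (H a x : ℚ) * (H b x : ℚ) := by
          rw [Finset.mul_sum]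
          exact Finset.sum_congr rfl fun x _ => by ring
      _ = _ := by
          rw [h']
          split_ifs
          · field_simp
          · simp
  have h2 := mul_eq_one_comm.1 h1
  have h3 := congrFun (congrFun h2 j) k
  rw [Matrix.mul_apply] at h3
  simp only [A, Matrix.smul_apply, Matrix.transpose_apply, Matrix.of_apply, smul_eq_mul,
      Matrix.one_apply] at h3
  have h4 : ∑ x, (H x j : ℚ) * (H x k : ℚ) = if j = k then (N : ℚ) else 0 := by
    have h5 : ∑ x, (N : ℚ)⁻¹ * (H x j : ℚ) * (H x k : ℚ)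
        = (N : ℚ)⁻¹ * ∑ x, (H x j : ℚ) * (H x k : ℚ) := by
      rw [Finset.mul_sum]
      exact Finset.sum_congr rfl fun x _ => by ring
    rw [h5] at h3
    field_simp at h3
    rw [h3]
    split_ifs <;> simp
  have h6 : (((∑ i, H i j * H i k : ℤ)) : ℚ) = ((if j = k then (N : ℤ) else 0 : ℤ) : ℚ) := by
    push_cast
    exact h4
  exact_mod_cast h6

lemma fam_hadamard {n m r : ℕ} (hm : m ≤ n) (hr : n + 1 + m ≤ 2 * r)
    (h : HadamardOrder (n + 1 + m)) : Fam (Fin n) r := by
  classical
  obtain ⟨H, hu, hH⟩ := h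
  have hrow := hadamard_rows hH
  have hcol := hadamard_cols (by omega) hH
  let u : Fin (n + 1 + m) → Fin (n + 1 + m) → ℤˣ := fun i j => if H i j = 1 then 1 else -1
  have huH : ∀ i j, ((u i j : ℤˣ) : ℤ) = H i j := by
    intro i j
    rcases hu i j with h | h
    · simp [u, h]
    · simp [u, h]
  have hsq : ∀ i j, H i j * H i j = 1 := by
    intro i j
    rcases hu i j with h | h <;> rw [h] <;> norm_num
  let z : Fin (n + 1 + m) := Fin.castAdd m 0
  let c : Fin n → Fin (n + 1 + m) := fun j => Fin.castAdd m j.succ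
  have hzc : ∀ j, z ≠ c j := by
    intro j h
    have := congrArg Fin.val h
    simp [z, c] at this
  have hsplit : ∀ f : Fin (n + 1 + m) → ℤ,
      ∑ j, f j = f z + ∑ j, f (c j) + ∑ j : Fin m, f (Fin.natAdd (n + 1) j) := by
    intro f
    rw [Fin.sum_univ_add, Fin.sum_univ_succ]
  have hinner : ∀ i k, ∑ j, ((u i z * u i (c j) : ℤˣ) : ℤ) * ((u k z * u k (c j) : ℤˣ) : ℤ)
      = (H i z * H k z) * ∑ j, H i (c j) * H k (c j) := by
    intro i k
    rw [Finset.mul_sum]
    refine Finset.sum_congr rfl fun j _ => ?_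
    push_cast
    rw [huH, huH, huH, huH]
    ring
  have hself : ∀ i, ∑ j, ((u i z * u i (c j) : ℤˣ) : ℤ) * ((u i z * u i (c j) : ℤˣ) : ℤ)
      = n := by
    intro i
    rw [hinner]
    simp only [hsq]
    simp
  have hoff : ∀ i k, i ≠ k →
      -1 - (m : ℤ) ≤ ∑ j, ((u i z * u i (c j) : ℤˣ) : ℤ) * ((u k z * u k (c j) : ℤˣ) : ℤ) ∧
      ∑ j, ((u i z * u i (c j) : ℤˣ) : ℤ) * ((u k z * u k (c j) : ℤˣ) : ℤ) ≤ -1 + (m : ℤ) := by
    intro i k hik
    rw [hinner]
    have h0 := hrow i k
    rw [if_neg hik, hsplit] at h0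
    have hR : |∑ j : Fin m, H i (Fin.natAdd (n + 1) j) * H k (Fin.natAdd (n + 1) j)| ≤ m := by
      calc _ ≤ ∑ j : Fin m, |H i (Fin.natAdd (n + 1) j) * H k (Fin.natAdd (n + 1) j)| :=
            Finset.abs_sum_le_sum_abs _ _
        _ = ∑ _j : Fin m, (1 : ℤ) := by
            refine Finset.sum_congr rfl fun j _ => ?_
            rcases hu i (Fin.natAdd (n + 1) j) with h | h <;>
              rcases hu k (Fin.natAdd (n + 1) j) with h' | h' <;> rw [h, h'] <;> norm_num
        _ = m := by simp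
    rw [abs_le] at hR
    obtain ⟨hR1, hR2⟩ := hR
    generalize (∑ j : Fin m, H i (Fin.natAdd (n + 1) j) * H k (Fin.natAdd (n + 1) j)) = R at *
    generalize (∑ j, H i (c j) * H k (c j)) = P at *
    have hs : H i z * H k z = 1 ∨ H i z * H k z = -1 := by
      rcases hu i z with h | h <;> rcases hu k z with h' | h' <;> rw [h, h'] <;> norm_num
    rcases hs with hs | hs
    · rw [hs] at h0 ⊢
      constructor <;> linarith
    · rw [hs] at h0 ⊢
      constructor <;> linarith
  refine ⟨Fin (n + 1 + m), inferInstance, ⟨z⟩, fun i j => u i z * u i (c j), ?_, ?_, ?_⟩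
  · intro i k hik
    by_contra hne
    have h1 := (hoff i k hne).2
    have h2 : ∑ j, ((u i z * u i (c j) : ℤˣ) : ℤ) * ((u k z * u k (c j) : ℤˣ) : ℤ) = n := by
      rw [← hself i]
      refine Finset.sum_congr rfl fun j _ => ?_
      have := congrFun hik j
      simp only at this
      rw [← this]
    rw [h2] at h1
    have : (m : ℤ) ≤ n := by exact_mod_cast hm
    linarith
  · intro j
    have h1 := hcol z (c j)
    rw [if_neg (hzc j)] at h1
    rw [← h1]
    refine Finset.sum_congr rfl fun i _ => ?_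
    push_cast
    rw [huH, huH]
  · intro i k
    rw [Fintype.card_fin]
    have hr' : (n : ℤ) + 1 + m ≤ 2 * r := by exact_mod_cast hr
    by_cases hik : i = k
    · subst hik
      rw [hself]
      linarith [(Nat.cast_nonneg m : (0 : ℤ) ≤ m)]
    · have := (hoff i k hik).1
      linarith

lemma had_one : HadamardOrder 1 := by
  refine ⟨Matrix.of fun _ _ => 1, fun i j => Or.inl rfl, ?_⟩
  apply hadamard_of_rows
  intro i k
  have : i = k := Subsingleton.elim _ _
  subst this
  simp

lemma had_two : HadamardOrder 2 := by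
  refine ⟨!![1, 1; 1, -1], ?_, ?_⟩
  · intro i j
    fin_cases i <;> fin_cases j <;> simp
  · apply hadamard_of_rows
    decide

lemma had_mul {M N : ℕ} (hM : HadamardOrder M) (hN : HadamardOrder N) :
    HadamardOrder (M * N) := by
  obtain ⟨H, hu, hH⟩ := hM
  obtain ⟨K, hv, hK⟩ := hN
  have hr1 := hadamard_rows hH
  have hr2 := hadamard_rows hK
  let e : Fin (M * N) ≃ Fin M × Fin N := finProdFinEquiv.symm
  refine ⟨Matrix.of fun i j => H (e i).1 (e j).1 * K (e i).2 (e j).2, ?_, ?_⟩
  · intro i j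
    simp only [Matrix.of_apply]
    rcases hu (e i).1 (e j).1 with h | h <;> rcases hv (e i).2 (e j).2 with h' | h' <;>
      rw [h, h'] <;> norm_num
  · apply hadamard_of_rows
    intro i k
    simp only [Matrix.of_apply]
    have h1 : ∑ j, H (e i).1 (e j).1 * K (e i).2 (e j).2 * (H (e k).1 (e j).1 * K (e k).2 (e j).2)
        = ∑ p : Fin M × Fin N, H (e i).1 p.1 * K (e i).2 p.2 * (H (e k).1 p.1 * K (e k).2 p.2) :=
      Equiv.sum_comp e (fun p => H (e i).1 p.1 * K (e i).2 p.2 * (H (e k).1 p.1 * K (e k).2 p.2))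
    rw [h1, Fintype.sum_prod_type]
    have h2 : ∑ a, ∑ b, H (e i).1 a * K (e i).2 b * (H (e k).1 a * K (e k).2 b)
        = (∑ a, H (e i).1 a * H (e k).1 a) * ∑ b, K (e i).2 b * K (e k).2 b := by
      rw [Finset.sum_mul_sum]
      refine Finset.sum_congr rfl fun a _ => Finset.sum_congr rfl fun b _ => ?_
      ring
    change ∑ a, ∑ b, H (e i).1 a * K (e i).2 b * (H (e k).1 a * K (e k).2 b) = _
    rw [h2, hr1, hr2]
    by_cases h3 : i = k
    · subst h3
      simp
    · rw [if_neg h3]
      by_cases h4 : (e i).1 = (e k).1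
      · have h5 : (e i).2 ≠ (e k).2 := fun h5 => h3 (e.injective (Prod.ext h4 h5))
        rw [if_neg h5, mul_zero]
      · rw [if_neg h4, zero_mul]

lemma had_pow (m : ℕ) : HadamardOrder (2 ^ m) := by
  induction m with
  | zero => exact had_one
  | succ m ih =>
    rw [pow_succ]
    exact had_mul ih had_two

/-- Hadamard orders are `1` or even. -/
lemma had_parity {N : ℕ} (h : HadamardOrder N) : N = 1 ∨ Even N := by
  obtain ⟨H, hu, hH⟩ := h
  rcases Nat.lt_or_ge N 2 with h2 | h2
  · interval_cases N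
    · right; exact Even.zero
    · left; rfl
  · right
    have hr := hadamard_rows hH ⟨0, by omega⟩ ⟨1, by omega⟩
    rw [if_neg (by simp)] at hr
    have h3 : ((∑ j, H ⟨0, by omega⟩ j * H ⟨1, by omega⟩ j : ℤ) : ZMod 2) = (N : ZMod 2) := by
      push_cast
      have : ∀ j : Fin N, ((H ⟨0, by omega⟩ j : ℤ) : ZMod 2) * ((H ⟨1, by omega⟩ j : ℤ) : ZMod 2)
          = 1 := by
        intro j
        have e : ((-1 : ℤ) : ZMod 2) = 1 := by decide
        rcases hu ⟨0, by omega⟩ j with h | h <;> rcases hu ⟨1, by omega⟩ j with h' | h' <;>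
          rw [h, h'] <;> simp [e]
      rw [Finset.sum_congr rfl (fun j _ => this j)]
      simp
    rw [hr] at h3
    have h4 : ((N : ℕ) : ZMod 2) = 0 := by rw [← h3]; simp
    exact (ZMod.natCast_eq_zero_iff_even).1 h4

lemma fam_had {a r : ℕ} (h : HadamardOrder (a + 1)) (hr : a + 1 ≤ 2 * r) : Fam (Fin a) r :=
  fam_hadamard (m := 0) (Nat.zero_le _) (by omega) h

/-! ### Lists of blocks -/

lemma fam_list (L : List ℕ) (hL : ∀ a ∈ L, HadamardOrder (a + 1)) :
    ∀ r, L.sum + L.length ≤ 2 * r → Fam (Fin L.sum) r := by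
  suffices H : ∃ r, 2 * r ≤ L.sum + L.length ∧ Fam (Fin L.sum) r by
    obtain ⟨r₀, h0, h1⟩ := H
    intro r hr
    exact h1.mono (by omega)
  induction L with
  | nil => exact ⟨0, by simp, fam_zero⟩
  | cons a L ih =>
    obtain ⟨r, h0, h1⟩ := ih (fun b hb => hL b (List.mem_cons_of_mem _ hb))
    have ha := hL a List.mem_cons_self
    rw [List.sum_cons, List.length_cons]
    rcases had_parity ha with h | h
    · have ha0 : a = 0 := by omega
      subst ha0
      refine ⟨r, by omega, ?_⟩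
      rw [Nat.zero_add]
      exact h1
    · obtain ⟨s, hs⟩ := h
      refine ⟨s + r, by omega, ?_⟩
      exact (fam_had ha (by omega)).add h1

/-- Every `n` has a balanced family with `2 r ≤ n + 1 + log₂(n+1)`. -/
lemma fam_log (n : ℕ) : ∃ r, 2 * r ≤ n + 1 + Nat.log 2 (n + 1) ∧ Fam (Fin n) r := by
  induction n using Nat.strong_induction_on with
  | _ n ih =>
    rcases Nat.eq_zero_or_pos n with h0 | h0
    · subst h0
      exact ⟨0, by simp, fam_zero⟩
    · have ha1 : 1 ≤ Nat.log 2 (n + 1) :=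
        (Nat.le_log_iff_pow_le (by norm_num) (by omega)).2 (by omega)
      have hpow : 2 ^ Nat.log 2 (n + 1) ≤ n + 1 := Nat.pow_log_le_self 2 (by omega)
      have hlt : n + 1 < 2 ^ (Nat.log 2 (n + 1) + 1) := Nat.lt_pow_succ_log_self (by norm_num) _
      obtain ⟨b, hab⟩ : ∃ b, Nat.log 2 (n + 1) = b + 1 := ⟨Nat.log 2 (n + 1) - 1, by omega⟩
      rw [hab] at hpow hlt ⊢
      have hb : 2 ^ (b + 1) = 2 * 2 ^ b := by ring
      have hb2 : 2 ^ (b + 1 + 1) = 4 * 2 ^ b := by ring
      have hbpos : 0 < 2 ^ b := by positivity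
      have hfam : Fam (Fin (2 ^ (b + 1) - 1)) (2 ^ b) := by
        apply fam_had
        · have : 2 ^ (b + 1) - 1 + 1 = 2 ^ (b + 1) := by omega
          rw [this]
          exact had_pow _
        · omega
      obtain ⟨m, hm⟩ : ∃ m, n = (2 ^ (b + 1) - 1) + m := ⟨n - (2 ^ (b + 1) - 1), by omega⟩
      by_cases hcase : m + 1 = 2 ^ (b + 1)
      · refine ⟨2 ^ b + 2 ^ b, by omega, ?_⟩
        have hm' : m = 2 ^ (b + 1) - 1 := by omega
        rw [hm, hm']
        exact hfam.add hfam
      · obtain ⟨r, h1, h2⟩ := ih m (by omega)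
        have hlog : Nat.log 2 (m + 1) ≤ b := by
          have : Nat.log 2 (m + 1) < b + 1 := by
            apply Nat.log_lt_of_lt_pow (by omega)
            omega
          omega
        refine ⟨2 ^ b + r, by omega, ?_⟩
        rw [hm]
        exact hfam.add h2

/-! ### Quadratic residues -/

section Paley

variable {F : Type} [Field F] [Fintype F] [DecidableEq F]

lemma chi_corr (hF : ringChar F ≠ 2) {i j : F} (hij : i ≠ j) :
    ∑ x, quadraticChar F (x - i) * quadraticChar F (x - j) = -1 := by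
  have h := jacobiSum_nontrivial_inv (quadraticChar_ne_one hF)
  rw [(quadraticChar_isQuadratic F).inv] at h
  have hd : j - i ≠ 0 := sub_ne_zero.2 hij.symm
  let e : F ≃ F := (Equiv.mulLeft₀ (j - i) hd).trans (Equiv.addLeft i)
  rw [← Equiv.sum_comp e]
  have h1 : ∀ t, quadraticChar F (e t - i) * quadraticChar F (e t - j)
      = quadraticChar F (-1) * (quadraticChar F t * quadraticChar F (1 - t)) := by
    intro t
    have e1 : e t - i = (j - i) * t := by
      simp [e]
    have e2 : e t - j = (-1) * ((j - i) * (1 - t)) := by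
      have : e t = i + (j - i) * t := by simp [e]
      rw [this]; ring
    rw [e1, e2, map_mul, map_mul, map_mul]
    have h2 := quadraticChar_sq_one hd
    linear_combination (quadraticChar F t * quadraticChar F (-1) * quadraticChar F (1 - t)) * h2
  rw [Finset.sum_congr rfl (fun t _ => h1 t), ← Finset.mul_sum]
  have h3 : ∑ t, quadraticChar F t * quadraticChar F (1 - t) = - quadraticChar F (-1) := h
  rw [h3]
  have h4 : quadraticChar F (-1 : F) ^ 2 = 1 := quadraticChar_sq_one (by norm_num)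
  linarith

lemma chi_sum (hF : ringChar F ≠ 2) (x : F) : ∑ i, quadraticChar F (x - i) = 0 := by
  rw [← quadraticChar_sum_zero hF]
  exact Equiv.sum_comp (Equiv.subLeft x) (fun y => quadraticChar F y)

lemma chi_sum' (hF : ringChar F ≠ 2) (i : F) : ∑ x, quadraticChar F (x - i) = 0 := by
  rw [← quadraticChar_sum_zero hF]
  exact Equiv.sum_comp (Equiv.subRight i) (fun y => quadraticChar F y)

lemma chi_self (i : F) : ∑ x, quadraticChar F (x - i) * quadraticChar F (x - i)
    = (Fintype.card F : ℤ) - 1 := by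
  have h1 : ∀ x, quadraticChar F (x - i) * quadraticChar F (x - i) = 1 - if x = i then 1 else 0 := by
    intro x
    by_cases h : x = i
    · subst h; simp
    · rw [if_neg h, ← pow_two, quadraticChar_sq_one (sub_ne_zero.2 h)]; norm_num
  rw [Finset.sum_congr rfl (fun x _ => h1 x), Finset.sum_sub_distrib]
  simp

/-- Sign vectors from quadratic residues: `±1` at the point `p.1`, quadratic character elsewhere. -/
def pal (p : F × ℤˣ) (x : F) : ℤˣ :=
  if x = p.1 then p.2 else if quadraticChar F (x - p.1) = 1 then 1 else -1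

lemma pal_val (p : F × ℤˣ) (x : F) :
    (pal p x : ℤ) = quadraticChar F (x - p.1) + if x = p.1 then (p.2 : ℤ) else 0 := by
  unfold pal
  by_cases h : x = p.1
  · rw [if_pos h, if_pos h, h]; simp
  · rw [if_neg h, if_neg h, add_zero]
    rcases quadraticChar_dichotomy (sub_ne_zero.2 h) with h1 | h1
    · rw [if_pos h1, h1]; simp
    · rw [if_neg (by rw [h1]; norm_num), h1]; simp

lemma pal_inner (i j : F) (ε δ : ℤ) :
    ∑ x, (quadraticChar F (x - i) + if x = i then ε else 0) *
      (quadraticChar F (x - j) + if x = j then δ else 0)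
    = ∑ x, quadraticChar F (x - i) * quadraticChar F (x - j) + quadraticChar F (j - i) * δ
      + ε * quadraticChar F (i - j) + if i = j then ε * δ else 0 := by
  have h : ∀ x, (quadraticChar F (x - i) + if x = i then ε else 0) *
      (quadraticChar F (x - j) + if x = j then δ else 0)
      = quadraticChar F (x - i) * quadraticChar F (x - j)
        + (if x = j then quadraticChar F (j - i) * δ else 0)
        + (if x = i then ε * quadraticChar F (i - j) else 0)
        + (if x = i then (if i = j then ε * δ else 0) else 0) := by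
    intro x
    by_cases h1 : x = i
    · subst h1
      by_cases h2 : x = j
      · subst h2; simp
      · simp [h2]
    · by_cases h2 : x = j
      · subst h2
        simp only [h1, if_false, add_zero, if_true]
        ring
      · simp [h1, h2]
  rw [Finset.sum_congr rfl (fun x _ => h x), Finset.sum_add_distrib, Finset.sum_add_distrib,
    Finset.sum_add_distrib]
  simp

lemma chi_bound (x : F) : -1 ≤ quadraticChar F x ∧ quadraticChar F x ≤ 1 := by
  by_cases h : x = 0
  · subst h; simp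
  · rcases quadraticChar_dichotomy h with h1 | h1 <;> rw [h1] <;> norm_num

lemma sum_units : ∑ ε : ℤˣ, (ε : ℤ) = 0 := by decide

lemma pal_same (p q : F × ℤˣ) (h : p.1 = q.1) :
    ∑ x, (pal p x : ℤ) * (pal q x : ℤ) = (Fintype.card F : ℤ) - 1 + (p.2 : ℤ) * (q.2 : ℤ) := by
  simp only [pal_val]
  rw [pal_inner, ← h, chi_self]
  simp

lemma pal_diff (hF : ringChar F ≠ 2) (p q : F × ℤˣ) (h : p.1 ≠ q.1) :
    ∑ x, (pal p x : ℤ) * (pal q x : ℤ)
      = -1 + quadraticChar F (q.1 - p.1) * (q.2 : ℤ) + (p.2 : ℤ) * quadraticChar F (p.1 - q.1) := by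
  simp only [pal_val]
  rw [pal_inner, chi_corr hF h, if_neg h, add_zero]

lemma unit_bound (c : ℤ) (h : -1 ≤ c ∧ c ≤ 1) (ε : ℤˣ) : -1 ≤ c * (ε : ℤ) ∧ c * (ε : ℤ) ≤ 1 := by
  rcases Int.units_eq_one_or ε with h' | h' <;> subst h' <;>
    simp only [Units.val_one, Units.val_neg] <;> constructor <;> linarith [h.1, h.2]

lemma pal_diff_bound (hF : ringChar F ≠ 2) (p q : F × ℤˣ) (h : p.1 ≠ q.1) :
    -3 ≤ ∑ x, (pal p x : ℤ) * (pal q x : ℤ) ∧ ∑ x, (pal p x : ℤ) * (pal q x : ℤ) ≤ 1 := by
  rw [pal_diff hF p q h]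
  have h1 := unit_bound _ (chi_bound (q.1 - p.1)) q.2
  have h2 := unit_bound _ (chi_bound (p.1 - q.1)) p.2
  rw [mul_comm (p.2 : ℤ)]
  constructor <;> linarith [h1.1, h1.2, h2.1, h2.2]

lemma fam_paley (hF : ringChar F ≠ 2) {r : ℕ} (hr : Fintype.card F + 3 ≤ 2 * r) : Fam F r := by
  have hodd := FiniteField.odd_card_of_char_ne_two hF
  have hcard : 2 < Fintype.card F := by
    have h1 : 1 < Fintype.card F := Fintype.one_lt_card
    omega
  have hcardZ : (2 : ℤ) < (Fintype.card F : ℤ) := by exact_mod_cast hcard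
  refine ⟨F × ℤˣ, inferInstance, inferInstance, pal, ?_, ?_, ?_⟩
  · rintro ⟨i, ε⟩ ⟨j, δ⟩ h
    by_cases hij : i = j
    · subst hij
      have h1 := congrFun h i
      have h2 : ε = δ := by simpa [pal] using h1
      rw [h2]
    · exfalso
      have h1 := (pal_diff_bound hF (i, ε) (j, δ) hij).2
      have h2 := pal_same (i, ε) (i, ε) rfl
      rw [← h] at h1
      rw [h2] at h1
      have h3 : (ε : ℤ) * (ε : ℤ) = 1 := by
        rcases Int.units_eq_one_or ε with h' | h' <;> subst h' <;> norm_num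
      simp only [h3] at h1
      linarith
  · intro x
    simp only [pal_val]
    rw [Fintype.sum_prod_type]
    have h1 : ∀ i : F, ∑ ε : ℤˣ, (quadraticChar F (x - i) + if x = i then (ε : ℤ) else 0)
        = 2 * quadraticChar F (x - i) := by
      intro i
      rw [Finset.sum_add_distrib, Finset.sum_const]
      have h2 : ∑ ε : ℤˣ, (if x = i then (ε : ℤ) else 0) = 0 := by
        split_ifs
        · exact sum_units
        · simp
      rw [h2, add_zero, Finset.card_univ, Fintype.card_units_int]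
      simp
    rw [Finset.sum_congr rfl (fun i _ => h1 i), ← Finset.mul_sum, chi_sum hF, mul_zero]
  · intro p q
    have hr' : (Fintype.card F : ℤ) + 3 ≤ 2 * r := by exact_mod_cast hr
    by_cases h : p.1 = q.1
    · rw [pal_same p q h]
      have h3 : -1 ≤ (p.2 : ℤ) * (q.2 : ℤ) := by
        rcases Int.units_eq_one_or p.2 with h | h <;> rcases Int.units_eq_one_or q.2 with h' | h' <;>
          rw [h, h'] <;> norm_num
      linarith
    · have h1 := (pal_diff_bound hF p q h).1
      linarith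

lemma had_paley (h4 : Fintype.card F % 4 = 3) : HadamardOrder (Fintype.card F + 1) := by
  have hF : ringChar F ≠ 2 := by
    intro h
    have := FiniteField.even_card_of_char_two h
    omega
  have hneg : quadraticChar F (-1) = -1 := by
    rw [quadraticChar_neg_one_iff_not_isSquare, FiniteField.isSquare_neg_one_iff]
    intro h
    exact h h4
  have hanti : ∀ y : F, quadraticChar F (-y) = - quadraticChar F y := by
    intro y
    rw [← neg_one_mul y, map_mul, hneg]
    ring
  let e : Fin (Fintype.card F + 1) ≃ Option F :=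
    (Fintype.equivFinOfCardEq (by rw [Fintype.card_option])).symm
  let K : Option F → Option F → ℤ := fun a b =>
    match a, b with
    | none, _ => 1
    | some _, none => 1
    | some i, some x => (pal (i, -1) x : ℤ)
  have hK : ∀ a b, K a b = 1 ∨ K a b = -1 := by
    intro a b
    cases a with
    | none => left; rfl
    | some i =>
      cases b with
      | none => left; rfl
      | some x =>
        rcases Int.units_eq_one_or (pal (i, -1) x) with h | h
        · left; change (pal (i, -1) x : ℤ) = 1; rw [h]; rfl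
        · right; change (pal (i, -1) x : ℤ) = -1; rw [h]; rfl
  have hsum : ∀ i : F, ∑ x, (pal (i, -1) x : ℤ) = -1 := by
    intro i
    simp only [pal_val]
    rw [Finset.sum_add_distrib, chi_sum' hF]
    simp
  have hrows : ∀ a b, ∑ c, K a c * K b c = if a = b then ((Fintype.card F + 1 : ℕ) : ℤ) else 0 := by
    intro a b
    rw [Fintype.sum_option]
    cases a with
    | none =>
      cases b with
      | none => simp [K]; ring
      | some j =>
        have : ∑ x, K none (some x) * K (some j) (some x) = ∑ x, (pal (j, -1) x : ℤ) :=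
          Finset.sum_congr rfl fun x _ => one_mul _
        rw [this, hsum]
        simp [K]
    | some i =>
      cases b with
      | none =>
        have : ∑ x, K (some i) (some x) * K none (some x) = ∑ x, (pal (i, -1) x : ℤ) :=
          Finset.sum_congr rfl fun x _ => mul_one _
        rw [this, hsum]
        simp [K]
      | some j =>
        change 1 * 1 + ∑ x, (pal (i, -1) x : ℤ) * (pal (j, -1) x : ℤ) = _
        by_cases h : i = j
        · subst h
          rw [pal_same _ _ rfl]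
          simp
          ring
        · rw [pal_diff hF _ _ h, if_neg (by simpa using h)]
          have h1 : quadraticChar F (j - i) = - quadraticChar F (i - j) := by
            rw [← hanti, neg_sub]
          simp only [h1]
          simp
  refine ⟨Matrix.of fun i j => K (e i) (e j), fun i j => hK _ _, ?_⟩
  apply hadamard_of_rows
  intro i k
  simp only [Matrix.of_apply]
  rw [Equiv.sum_comp e (fun c => K (e i) c * K (e k) c), hrows]
  simp

end Paley

/-! ### The result -/

lemma q1_of_fam {n r : ℕ} (h : 2 * r ≤ n + 1 ∨ Fam (Fin n) r) : Q1At n r := by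
  rcases h with h | h
  · intro hc
    exact (small_r h hc).1
  · intro _
    exact h.balanced

lemma block {a : ℕ} (h : HadamardOrder (a + 1)) :
    ∃ s, (a = 0 ∧ s = 0 ∨ a + 1 = 2 * s) ∧ Fam (Fin a) s := by
  rcases had_parity h with h' | h'
  · have ha : a = 0 := by omega
    subst ha
    exact ⟨0, Or.inl ⟨rfl, rfl⟩, fam_zero⟩
  · obtain ⟨s, hs⟩ := h'
    exact ⟨s, Or.inr (by omega), fam_had h (by omega)⟩

lemma block' {a : ℕ} (h : HadamardOrder (a + 1)) (ha : 1 ≤ a) :
    ∃ s, a + 1 = 2 * s ∧ Fam (Fin (a - 1)) s := by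
  obtain ⟨s, hs, -⟩ := block h
  have hs' : a + 1 = 2 * s := by omega
  refine ⟨s, hs', ?_⟩
  rcases Nat.eq_or_lt_of_le ha with h1 | h1
  · subst h1
    exact fam_zero.mono (Nat.zero_le _)
  · obtain ⟨b, rfl⟩ : ∃ b, a = b + 1 := ⟨a - 1, by omega⟩
    exact fam_hadamard (n := b) (m := 1) (by omega) (by omega) h

lemma q1_sum3 {a b c : ℕ} (ha : HadamardOrder (a + 1)) (hb : HadamardOrder (b + 1))
    (hc : HadamardOrder (c + 1)) (r : ℕ) : Q1At (a + b + c) r := by
  apply q1_of_fam
  by_cases h : 2 * r ≤ a + b + c + 1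
  · exact Or.inl h
  · right
    obtain ⟨s, hs, fa⟩ := block ha
    obtain ⟨t, ht, fb⟩ := block hb
    obtain ⟨u, hu, fc⟩ := block hc
    exact ((fa.add fb).add fc).mono (by omega)

lemma q1_sum2 {a b : ℕ} (ha : HadamardOrder (a + 1)) (hb : HadamardOrder (b + 1)) (r : ℕ) :
    Q1At (a + b - 1) r := by
  apply q1_of_fam
  by_cases h : 2 * r ≤ a + b - 1 + 1
  · exact Or.inl h
  · right
    rcases Nat.eq_zero_or_pos a with h0 | h0
    · subst h0
      rcases Nat.eq_zero_or_pos b with h1 | h1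
      · subst h1
        exact fam_zero.mono (Nat.zero_le _)
      · obtain ⟨t, ht, fb⟩ := block' hb h1
        have e : 0 + b - 1 = b - 1 := by omega
        rw [e]
        exact fb.mono (by omega)
    · obtain ⟨s, hs, fa⟩ := block' ha h0
      obtain ⟨t, ht, fb⟩ := block hb
      have e : a + b - 1 = (a - 1) + b := by omega
      rw [e]
      exact (fa.add fb).mono (by omega)

lemma q1_sub2 {a : ℕ} (ha : HadamardOrder (a + 1)) (r : ℕ) : Q1At (a - 2) r := by
  apply q1_of_fam
  by_cases h : 2 * r ≤ a - 2 + 1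
  · exact Or.inl h
  · right
    obtain ⟨s, hs, -⟩ := block ha
    rcases Nat.lt_or_ge a 3 with h3 | h3
    · have e : a - 2 = 0 := by omega
      rw [e]
      exact fam_zero.mono (Nat.zero_le _)
    · rcases Nat.eq_or_lt_of_le h3 with h4 | h4
      · subst h4
        exact fam_one.mono (by omega)
      · obtain ⟨b, rfl⟩ : ∃ b, a = b + 2 := ⟨a - 2, by omega⟩
        exact fam_hadamard (n := b) (m := 2) (by omega) (by omega) ha

lemma exists_field {q : ℕ} (hq : IsPrimePow q) :
    ∃ (F : Type) (_ : Field F) (_ : Fintype F), Fintype.card F = q := by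
  obtain ⟨p, k, hp, hk, rfl⟩ := hq
  have := Fact.mk hp.nat_prime
  let : Fintype (GaloisField p k) := Fintype.ofFinite _
  refine ⟨GaloisField p k, inferInstance, inferInstance, ?_⟩
  rw [← Nat.card_eq_fintype_card, GaloisField.card p k hk.ne']

lemma q1_primePow {q : ℕ} (hq : IsPrimePow q) (hodd : Odd q) (r : ℕ) : Q1At q r := by
  classical
  apply q1_of_fam
  by_cases h : 2 * r ≤ q + 1
  · exact Or.inl h
  · right
    obtain ⟨F, _, _, hF⟩ := exists_field hq
    have hchar : ringChar F ≠ 2 := by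
      intro h2
      have := FiniteField.even_card_of_char_two h2
      rw [hF] at this
      rcases hodd with ⟨k, hk⟩
      omega
    have h1 : Fam F r := fam_paley hchar (by
      rw [hF]
      rcases hodd with ⟨k, hk⟩
      omega)
    exact h1.equiv (Fintype.equivFinOfCardEq hF)

lemma had_primePow {q : ℕ} (hq : IsPrimePow q) (h4 : q % 4 = 3) : HadamardOrder (q + 1) := by
  classical
  obtain ⟨F, _, _, hF⟩ := exists_field hq
  rw [← hF]
  exact had_paley (by rw [hF]; exact h4)

lemma mem_im_of_balanced {n r : ℕ} {B : Finset (Fin n → Bool)} (hB : Balanced B)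
    (hd : DiamLe B r) : centre n ∈ im n r := by
  refine ⟨B, hB.1, hd, ?_⟩
  have hc : (B.card : ℝ) ≠ 0 := by
    have := Finset.card_pos.2 hB.1
    positivity
  rw [← hB.2, Finset.smul_sum]
  refine (convex_convexHull ℝ _).sum_mem (fun _ _ => by positivity) ?_ ?_
  · rw [Finset.sum_const, nsmul_eq_mul]
    field_simp
  · intro b hb
    exact subset_convexHull ℝ _ ⟨b, hb, rfl⟩

theorem result :
    -- (1) small `r`
    (∀ n r : ℕ, 2 * r ≤ n + 1 → Q1At n r) ∧
    (∀ r : ℕ, 1 ≤ r → (centre (2 * r - 1) ∈ im (2 * r - 1) r ↔ HadamardOrder (2 * r))) ∧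
    -- (2) large `r`
    (∀ n r : ℕ, n + 1 + Nat.log 2 (n + 1) ≤ 2 * r →
      ∃ B : Finset (Fin n → Bool), Balanced B ∧ DiamLe B r) ∧
    (∀ L : List ℕ, (∀ a ∈ L, HadamardOrder (a + 1)) → ∀ r : ℕ, L.sum + L.length ≤ 2 * r →
      ∃ B : Finset (Fin L.sum → Bool), Balanced B ∧ DiamLe B r) ∧
    -- (3) dimensions where Q1 holds for every `r`
    (∀ a b c : ℕ, HadamardOrder (a + 1) → HadamardOrder (b + 1) → HadamardOrder (c + 1) →
      ∀ r : ℕ, Q1At (a + b + c) r ∧ Q1At (a + b - 1) r ∧ Q1At (a - 2) r) ∧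
    (∀ q : ℕ, IsPrimePow q → Odd q → ∀ r : ℕ, Q1At q r) ∧
    (∀ p₁ p₂ p₃ : ℕ, p₁.Prime → p₂.Prime → p₃.Prime → p₁ % 4 = 3 → p₂ % 4 = 3 → p₃ % 4 = 3 →
      ∀ r : ℕ, Q1At (p₁ + p₂ + p₃) r ∧ Q1At (p₁ + p₂ + 1) r ∧ Q1At (p₁ + p₂) r) ∧
    ((∀ k : ℕ, 1 ≤ k → HadamardOrder (4 * k)) → ∀ n r : ℕ, Q1At n r) ∧
    -- (4) Hadamard orders
    (∀ m : ℕ, HadamardOrder (2 ^ m)) ∧
    (∀ q : ℕ, IsPrimePow q → q % 4 = 3 → HadamardOrder (q + 1)) ∧
    (∀ M N : ℕ, HadamardOrder M → HadamardOrder N → HadamardOrder (M * N)) := by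
  refine ⟨fun n r h => q1_of_fam (Or.inl h), ?_, ?_, ?_, ?_, ?_, ?_, ?_, had_pow, ?_, ?_⟩
  · intro r hr
    have e : 2 * r - 1 + 1 = 2 * r := by omega
    constructor
    · intro h
      have := (small_r (n := 2 * r - 1) (r := r) (by omega) h).2
      rwa [e] at this
    · intro h
      rw [← e] at h
      obtain ⟨B, hB, hd⟩ := (fam_had (a := 2 * r - 1) (r := r) h (by omega)).balanced
      exact mem_im_of_balanced hB hd
  · intro n r h
    obtain ⟨s, h1, h2⟩ := fam_log n
    exact (h2.mono (by omega)).balanced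
  · intro L hL r h
    exact (fam_list L hL r h).balanced
  · intro a b c ha hb hc r
    exact ⟨q1_sum3 ha hb hc r, q1_sum2 ha hb r, q1_sub2 ha r⟩
  · intro q hq ho r
    exact q1_primePow hq ho r
  · intro p₁ p₂ p₃ h1 h2 h3 e1 e2 e3 r
    have f1 := had_primePow h1.isPrimePow e1
    have f2 := had_primePow h2.isPrimePow e2
    have f3 := had_primePow h3.isPrimePow e3
    refine ⟨q1_sum3 f1 f2 f3 r, q1_sum3 f1 f2 (c := 1) had_two r, ?_⟩
    exact q1_sum3 f1 f2 (c := 0) had_one r
  · intro H n r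
    obtain ⟨k, hk | hk | hk | hk⟩ : ∃ k, n = 4 * k ∨ n = 4 * k + 1 ∨ n = 4 * k + 2 ∨ n = 4 * k + 3 :=
      ⟨n / 4, by omega⟩
    · rcases Nat.eq_zero_or_pos k with h0 | h0
      · have e : n = 0 + 0 + 0 := by omega
        rw [e]
        exact q1_sum3 had_one had_one had_one r
      · have e : n = (4 * k - 1) + 1 + 0 := by omega
        have e' : 4 * k - 1 + 1 = 4 * k := by omega
        rw [e]
        exact q1_sum3 (by rw [e']; exact H k h0) had_two had_one r
    · rcases Nat.eq_zero_or_pos k with h0 | h0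
      · have e : n = 1 + 0 + 0 := by omega
        rw [e]
        exact q1_sum3 had_two had_one had_one r
      · have e : n = (4 * k - 1) + 1 + 1 := by omega
        have e' : 4 * k - 1 + 1 = 4 * k := by omega
        rw [e]
        exact q1_sum3 (by rw [e']; exact H k h0) had_two had_two r
    · have e : n = (4 * k + 3) + 0 - 1 := by omega
      have e' : 4 * k + 3 + 1 = 4 * (k + 1) := by omega
      rw [e]
      exact q1_sum2 (by rw [e']; exact H (k + 1) (by omega)) had_one r
    · have e : n = (4 * k + 3) + 0 + 0 := by omega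
      have e' : 4 * k + 3 + 1 = 4 * (k + 1) := by omega
      rw [e]
      exact q1_sum3 (by rw [e']; exact H (k + 1) (by omega)) had_one had_one r
  · intro q hq h4
    exact had_primePow hq h4
  · intro M N hM hN
    exact had_mul hM hN

end Pool.Agent.Results.MP_039f5e_co.BalancedSets
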